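import Mathlib
import Pool.Agent.J4.H95.R2.Fin

/-!
# MP_b06be4_an: a lower bound for the minimal Riesz 2-energy on the 2-sphere with the conjectured
coefficient of `N²`, up to `10⁻⁸`
-/

set_option autoImplicit false

open Filter Topology

namespace Pool.Agent.Results.MP_b06be4_an.NearSharpLowerBound

/-- With the Stieltjes constants `c₁ = γ₁(1/3)` and `c₂ = γ₁(2/3)` and the conjectured coefficient
`C = (γ - log (2 √3 π)) / 4 + √3 / (4 π) (c₂ - c₁)`: for all large `N`, the infimum of the Riesz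
`2`-energy of `N` different points of the unit sphere of `ℝ³` is at least
`(1/4) N² log N + (C - 10⁻⁸) N²`. -/
theorem result :
    ∃ c₁ c₂ : ℂ,
      Tendsto
        (fun s : ℂ => deriv (fun z : ℂ => HurwitzZeta.hurwitzZeta ((1/3 : ℝ) : UnitAddCircle) z - 1 / (z - 1)) s)
        (𝓝[≠] (1 : ℂ)) (𝓝 (-c₁)) ∧
      Tendsto
        (fun s : ℂ => deriv (fun z : ℂ => HurwitzZeta.hurwitzZeta ((2/3 : ℝ) : UnitAddCircle) z - 1 / (z - 1)) s)
        (𝓝[≠] (1 : ℂ)) (𝓝 (-c₂)) ∧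
      ∀ᶠ N : ℕ in atTop,
        (1/4 : ℝ) * (N : ℝ) ^ 2 * Real.log (N : ℝ)
            + ((1/4 : ℝ) * (Real.eulerMascheroniConstant
                  - Real.log (2 * Real.sqrt 3 * Real.pi))
                + Real.sqrt 3 / (4 * Real.pi) * (c₂.re - c₁.re) - 10 ^ (-8 : ℤ)) * (N : ℝ) ^ 2 ≤
          sInf {E : ℝ | ∃ x : Fin N → EuclideanSpace ℝ (Fin 3),
              Function.Injective x ∧ (∀ i, ‖x i‖ = 1) ∧
              E = ∑ i, ∑ j, if i = j then (0 : ℝ) else 1 / ‖x i - x j‖ ^ 2} :=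
  Pool.Agent.J4.H95.R2.fin

end Pool.Agent.Results.MP_b06be4_an.NearSharpLowerBound
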